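import Pool.Agent.Run7.h897.QU.Iface

/-!
# U6: the observable is local and gauge invariant
-/

set_option autoImplicit false

open MeasureTheory Matrix Filter Topology
open scoped ComplexConjugate
open Run7.h4.YM Run7.h630.WL Run7.h630.ML Run7.h630.MQ Run7.h630.QC
open Pool.Agent.Run7.h897.QU

namespace Run7.h115.QU

theorem list_gauge {G : Type*} [Group G] (h v : ℕ → G) (n : ℕ) :
    ((List.range n).map fun t => h t * v t * (h (t + 1))⁻¹).prod =
      h 0 * ((List.range n).map v).prod * (h n)⁻¹ := by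
  induction n with
  | zero => simp
  | succ n ih =>
    rw [List.range_succ, List.map_append, List.prod_append, ih, List.map_append, List.prod_append]
    simp only [List.map_cons, List.map_nil, List.prod_singleton]
    group

theorem trace_conj {N : ℕ} (a b : SU N) : trace (a * b * a⁻¹).1 = trace b.1 := by
  have h1 : (a * b * a⁻¹).1 = a.1 * b.1 * (a⁻¹).1 := rfl
  have h2 : (a⁻¹).1 * a.1 = 1 := by
    have h3 : (a⁻¹ * a).1 = (a⁻¹).1 * a.1 := rfl
    rw [← h3, inv_mul_cancel]
    rfl
  rw [h1, Matrix.trace_mul_comm, ← Matrix.mul_assoc, h2, Matrix.one_mul]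

theorem cont_loop {N l : ℕ} (x : ℤ × ℤ) (y : ZMod l) :
    Continuous fun V : LinkZ l → SU N => loop V x y := by
  unfold loop
  exact continuous_list_prod _ fun t _ => continuous_apply _

theorem cont_mode {N l : ℕ} (k : ℕ) (j : ℕ × ℤ) (x : ℤ × ℤ) :
    Continuous fun V : LinkZ l → SU N => mode k V j x := by
  unfold mode
  refine continuous_finsetSum _ fun t _ => continuous_const.mul ?_
  have h1 : Continuous fun V : LinkZ l → SU N => (loop V x (1 + (t : ZMod l)) ^ j.1).1 :=
    continuous_subtype_val.comp ((cont_loop x _).pow _)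
  exact h1.matrix_trace

theorem gauge_mode {N l : ℕ} [NeZero l] (k : ℕ) (j : ℕ × ℤ) (x : ℤ × ℤ) (h : SiteZ l → SU N)
    (V : LinkZ l → SU N) :
    mode k (fun e => h e.2 * V e * (h (e.2 + dirZ e.1))⁻¹) j x = mode k V j x := by
  unfold mode
  refine Finset.sum_congr rfl fun t _ => ?_
  congr 1
  obtain ⟨y, hy⟩ : ∃ y : ZMod l, y = 1 + (t : ZMod l) := ⟨_, rfl⟩
  rw [← hy]
  have h1 : loop (fun e => h e.2 * V e * (h (e.2 + dirZ e.1))⁻¹) x y =
      h (x.1, x.2, 0, y) * loop V x y * (h (x.1, x.2, 0, y))⁻¹ := by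
    unfold loop
    have h2 := list_gauge (fun s : ℕ => h (x.1, x.2, (s : ZMod l), y))
      (fun s : ℕ => V (2, (x.1, x.2, (s : ZMod l), y))) l
    simp only [Nat.cast_zero, ZMod.natCast_self] at h2
    rw [← h2]
    congr 2
    funext s
    have h3 : (((x.1, x.2, (s : ZMod l), y) : SiteZ l) + dirZ 2) =
        (x.1, x.2, ((s + 1 : ℕ) : ZMod l), y) := by
      simp [dirZ]
    show h _ * V _ * (h (((x.1, x.2, (s : ZMod l), y) : SiteZ l) + dirZ 2))⁻¹ = _
    rw [h3]
  rw [h1]
  have h4 : ∀ (a b : SU N) (n : ℕ), (a * b * a⁻¹) ^ n = a * b ^ n * a⁻¹ := fun a b n =>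
    conj_pow
  rw [h4, trace_conj]

theorem t_U6 : S_U6 := by
  intro N l k _ _ j s Y
  refine ⟨⟨?_, Y, ?_⟩, ?_⟩
  · unfold Fs Xf
    refine Real.continuous_sin.comp (continuous_const.mul (continuous_finsetSum _ fun i _ =>
      continuous_const.mul (Complex.continuous_re.comp (cont_mode k j _))))
  · intro V V' hV
    have h1 : ∀ i ∈ Finset.range Y, mode k V j (0, (i : ℤ)) = mode k V' j (0, (i : ℤ)) := by
      intro i hi
      have hi' := Finset.mem_range.1 hi
      unfold mode loop
      refine Finset.sum_congr rfl fun t _ => ?_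
      have h2 : ∀ s : ℕ, V (2, ((0 : ℤ), (i : ℤ), (s : ZMod l), 1 + (t : ZMod l))) =
          V' (2, ((0 : ℤ), (i : ℤ), (s : ZMod l), 1 + (t : ZMod l))) := by
        intro s
        refine hV _ (show (2 : Fin 4) ≠ 0 by decide) rfl ?_
        show |((i : ℕ) : ℤ)| ≤ (Y : ℤ)
        rw [abs_of_nonneg (by positivity)]
        exact_mod_cast hi'.le
      simp only [h2]
    unfold Fs Xf
    congr 2
    exact Finset.sum_congr rfl fun i hi => by rw [h1 i hi]
  · intro h V
    unfold Fs Xf
    simp only [gauge_mode]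

end Run7.h115.QU
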